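import Pool.Agent.U689.MG.Cocycle

/-!
# Many words with different flows
-/

set_option autoImplicit false

namespace Pool.Agent.U689.MG

open FreeGroup

variable {α : Type} [DecidableEq α]

section words

variable [Nontrivial α]

/-- another letter -/
noncomputable def oth (x : α) : α := (exists_ne x).choose

theorem oth_ne (x : α) : oth x ≠ x := (exists_ne x).choose_spec

/-- three letters which may follow the given one -/
noncomputable def nxt (a : α × Bool) (i : Fin 3) : α × Bool :=
  if i = 0 then a else (oth a.1, decide (i = 1))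

theorem nxt_ok (a : α × Bool) (i : Fin 3) : a.1 = (nxt a i).1 → a.2 = (nxt a i).2 := by
  unfold nxt
  split_ifs with h
  · intro _
    rfl
  · intro h1
    exact absurd h1.symm (oth_ne a.1)

theorem nxt_inj (a : α × Bool) : Function.Injective (nxt a) := by
  intro i j hij
  unfold nxt at hij
  split_ifs at hij with h1 h2 h2
  · rw [h1, h2]
  · exact absurd (congrArg Prod.fst hij).symm (oth_ne a.1)
  · exact absurd (congrArg Prod.fst hij) (oth_ne a.1)
  · have h3 : decide (i = 1) = decide (j = 1) := (congrArg Prod.snd hij)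
    have h4 : i = 1 ↔ j = 1 := by simpa using h3
    omega

/-- the words -/
noncomputable def wl : (α × Bool) → List (Fin 3) → List (α × Bool)
  | _, [] => []
  | a, i :: l => nxt a i :: wl (nxt a i) l

theorem wl_len (a : α × Bool) (l : List (Fin 3)) : (wl a l).length = l.length := by
  induction l generalizing a with
  | nil => rfl
  | cons i l ih => simp [wl, ih]

theorem wl_red (a : α × Bool) (l : List (Fin 3)) : FreeGroup.IsReduced (a :: wl a l) := by
  induction l generalizing a with
  | nil => exact FreeGroup.IsReduced.singleton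
  | cons i l ih =>
    rw [wl, FreeGroup.isReduced_cons_cons]
    exact ⟨nxt_ok a i, ih _⟩

theorem wl_inj (a : α × Bool) (l l' : List (Fin 3)) (h : wl a l = wl a l') : l = l' := by
  induction l generalizing a l' with
  | nil =>
    cases l' with
    | nil => rfl
    | cons i l' => simp [wl] at h
  | cons i l ih =>
    cases l' with
    | nil => simp [wl] at h
    | cons j l' =>
      rw [wl, wl, List.cons.injEq] at h
      have h1 := nxt_inj a h.1
      subst h1
      rw [ih _ _ h.2]

theorem exists_words (n : ℕ) : ∃ wd : (Fin n → Fin 3) → FreeGroup α, Function.Injective wd ∧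
    ∀ i, FreeGroup.norm (wd i) ≤ n := by
  obtain ⟨x⟩ : Nonempty α := inferInstance
  have hred : ∀ l : List (Fin 3), FreeGroup.IsReduced (wl (x, true) l) := fun l =>
    isReduced_part (wl_red (x, true) l) ⟨[(x, true)], [], by simp⟩
  refine ⟨fun i => FreeGroup.mk (wl (x, true) (List.ofFn i)), ?_, ?_⟩
  · intro i j hij
    have h1 := congrArg FreeGroup.toWord hij
    simp only [FreeGroup.toWord_mk] at h1
    rw [(hred _).reduce_eq, (hred _).reduce_eq] at h1
    exact List.ofFn_injective (wl_inj _ _ _ h1)
  · intro i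
    refine (FreeGroup.norm_mk_le).trans ?_
    rw [wl_len, List.length_ofFn]

end words

section blocks

variable {N : Subgroup (FreeGroup α)} [N.Normal] {p : ℕ} {r : FreeGroup α}

/-- short elements are determined by their images -/
theorem eq_of_mk (hmin : ∀ s ∈ N, s ≠ 1 → FreeGroup.norm r ≤ FreeGroup.norm s)
    {u v : FreeGroup α} (h : FreeGroup.norm u + FreeGroup.norm v < FreeGroup.norm r)
    (he : (QuotientGroup.mk u : FreeGroup α ⧸ N) = QuotientGroup.mk v) : u = v := by
  have h1 : u⁻¹ * v ∈ N := QuotientGroup.eq.1 he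
  by_contra hne
  have h2 : u⁻¹ * v ≠ 1 := fun h3 => hne (inv_mul_eq_one.1 h3)
  have h3 := hmin _ h1 h2
  have h4 := FreeGroup.norm_mul_le u⁻¹ v
  rw [FreeGroup.norm_inv_eq] at h4
  omega

/-- the flow of the shortest relation lives near the identity -/
theorem supp_r {g : FreeGroup α ⧸ N} (h : c N p r g ≠ 1) :
    ∃ k ≤ FreeGroup.norm r, (QuotientGroup.mk (FreeGroup.mk (r.toWord.take k)) :
      FreeGroup α ⧸ N) = g := by
  rw [← FreeGroup.mk_toWord (x := r)] at h
  obtain ⟨L1, hL1, hg⟩ := c_supp N p r.toWord g h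
  refine ⟨L1.length, hL1.length_le, ?_⟩
  rw [← List.prefix_iff_eq_take.1 hL1]
  exact hg

theorem exists_blocks [Nontrivial α] (hp : p ≠ 1) (hr : r ∈ N) (hr1 : r ≠ 1)
    (hmin : ∀ s ∈ N, s ≠ 1 → FreeGroup.norm r ≤ FreeGroup.norm s) (l : ℕ)
    (hl : 2 * l < FreeGroup.norm r) :
    ∃ T : Finset (A N p), 2 ≤ T.card ∧ 3 ^ l ≤ (FreeGroup.norm r + 1) * T.card ∧
      ∀ τ ∈ T, (∃ b ∈ N, FreeGroup.norm b ≤ 2 * l + FreeGroup.norm r ∧ c N p b = τ) ∧
        ∀ g, τ g ≠ 1 → Sh N (l + FreeGroup.norm r) g := by
  classical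
  obtain ⟨wd, hwi, hwn⟩ := exists_words (α := α) l
  obtain ⟨g₀, hg₀⟩ := c_ne_one hp hr hr1 hmin
  let f : (Fin l → Fin 3) → A N p := fun i => c N p (wd i * r * (wd i)⁻¹)
  have hf : ∀ i g, f i g = c N p r ((QuotientGroup.mk (wd i))⁻¹ * g) := fun i g =>
    c_conj N p hr g
  have hfne : ∀ i, f i ≠ 1 := by
    intro i h
    apply hg₀
    have := congrFun h (QuotientGroup.mk (wd i) * g₀)
    rw [hf, inv_mul_cancel_left] at this
    exact this
  refine ⟨insert 1 (Finset.univ.image f), ?_, ?_, ?_⟩
  · have h1 : f (fun _ => 0) ∈ Finset.univ.image f := Finset.mem_image_of_mem _ (Finset.mem_univ _)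
    have h2 : ({1, f (fun _ => 0)} : Finset (A N p)) ⊆ insert 1 (Finset.univ.image f) := by
      intro τ hτ
      rw [Finset.mem_insert, Finset.mem_singleton] at hτ
      rcases hτ with rfl | rfl
      · exact Finset.mem_insert_self _ _
      · exact Finset.mem_insert_of_mem h1
    have h3 := Finset.card_le_card h2
    rwa [Finset.card_pair (hfne _).symm] at h3
  · have h1 : (Finset.univ : Finset (Fin l → Fin 3)).card ≤
        (FreeGroup.norm r + 1) * (Finset.univ.image f).card := by
      apply Finset.card_le_mul_card_image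
      intro τ hτ
      obtain ⟨i₀, -, rfl⟩ := Finset.mem_image.1 hτ
      have h2 : (Finset.univ.filter fun i => f i = f i₀).card ≤
          ((Finset.range (FreeGroup.norm r + 1)).image fun k =>
            (QuotientGroup.mk (FreeGroup.mk (r.toWord.take k)) : FreeGroup α ⧸ N)).card := by
        apply Finset.card_le_card_of_injOn
          (fun i => (QuotientGroup.mk (wd i₀))⁻¹ * (QuotientGroup.mk (wd i) * g₀))
        · intro i hi
          rw [Finset.mem_coe, Finset.mem_filter] at hi
          have h3 : c N p r ((QuotientGroup.mk (wd i₀))⁻¹ * (QuotientGroup.mk (wd i) * g₀)) ≠ 1 := by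
            rw [← hf i₀, ← hi.2, hf, inv_mul_cancel_left]
            exact hg₀
          obtain ⟨k, hk, hk2⟩ := supp_r h3
          rw [Finset.mem_coe, Finset.mem_image]
          exact ⟨k, Finset.mem_range.2 (by omega), hk2⟩
        · intro i _ j _ hij
          have h3 : (QuotientGroup.mk (wd i) : FreeGroup α ⧸ N) = QuotientGroup.mk (wd j) :=
            mul_right_cancel (mul_left_cancel hij)
          exact hwi (eq_of_mk hmin (by have := hwn i; have := hwn j; omega) h3)
      refine h2.trans (Finset.card_image_le.trans ?_)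
      rw [Finset.card_range]
    rw [Finset.card_univ, Fintype.card_fun, Fintype.card_fin, Fintype.card_fin] at h1
    refine h1.trans (Nat.mul_le_mul_left _ ?_)
    exact Finset.card_le_card (Finset.subset_insert _ _)
  · intro τ hτ
    rw [Finset.mem_insert, Finset.mem_image] at hτ
    rcases hτ with rfl | ⟨i, -, rfl⟩
    · refine ⟨⟨1, N.one_mem, by simp, ?_⟩, fun g hg => absurd rfl hg⟩
      funext g
      exact c_one N p g
    · refine ⟨⟨wd i * r * (wd i)⁻¹, Subgroup.Normal.conj_mem ‹N.Normal› r hr _, ?_, rfl⟩, ?_⟩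
      · have h1 := FreeGroup.norm_mul_le (wd i * r) (wd i)⁻¹
        have h2 := FreeGroup.norm_mul_le (wd i) r
        rw [FreeGroup.norm_inv_eq] at h1
        have := hwn i
        omega
      · intro g hg
        rw [hf] at hg
        obtain ⟨k, hk, hk2⟩ := supp_r hg
        have h1 : Sh N (FreeGroup.norm r) ((QuotientGroup.mk (wd i))⁻¹ * g) := by
          refine ⟨_, (FreeGroup.norm_mk_le).trans ?_, hk2⟩
          rw [List.length_take]
          exact (min_le_left _ _).trans hk
        have h2 : Sh N l (QuotientGroup.mk (wd i)) := ⟨wd i, hwn i, rfl⟩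
        have h3 := h2.mul h1
        rwa [mul_inv_cancel_left] at h3

end blocks

section geodesic

variable (N : Subgroup (FreeGroup α)) [N.Normal]

theorem finite_norm [Finite α] (n : ℕ) : {v : FreeGroup α | FreeGroup.norm v ≤ n}.Finite := by
  refine Set.Finite.subset ((List.finite_length_le (α × Bool) n).image FreeGroup.mk) ?_
  intro v hv
  exact ⟨v.toWord, hv, FreeGroup.mk_toWord⟩

/-- a geodesic, cut into pieces of the length `s` -/
theorem exists_geodesic [Finite α] [Infinite (FreeGroup α ⧸ N)] (s B : ℕ) :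
    ∃ h seg : ℕ → FreeGroup α, h 0 = 1 ∧ (∀ k, h (k + 1) = h k * seg k) ∧
      (∀ k, FreeGroup.norm (seg k) ≤ s) ∧
      ∀ j k, j < k → k ≤ B → ∀ t, t < s →
        ¬ Sh N t ((QuotientGroup.mk (h j))⁻¹ * QuotientGroup.mk (h k)) := by
  classical
  -- an element far from the identity
  obtain ⟨q, hq⟩ : ∃ q : FreeGroup α ⧸ N, ¬ Sh N (s * B) q := by
    by_contra hcon
    push Not at hcon
    have h1 : (Set.univ : Set (FreeGroup α ⧸ N)).Finite := by
      refine Set.Finite.subset ((finite_norm (α := α) (s * B)).image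
        (fun v => (QuotientGroup.mk v : FreeGroup α ⧸ N))) ?_
      intro q _
      obtain ⟨v, hv, hq⟩ := hcon q
      exact ⟨v, hv, hq⟩
    exact Set.infinite_univ h1
  -- a shortest representative
  have hex : ∃ n, ∃ v : FreeGroup α, FreeGroup.norm v = n ∧
      (QuotientGroup.mk v : FreeGroup α ⧸ N) = q := by
    obtain ⟨v, rfl⟩ := QuotientGroup.mk_surjective q
    exact ⟨_, v, rfl, rfl⟩
  obtain ⟨v, hvn, hvq⟩ := Nat.find_spec hex
  have hvmin : ∀ w : FreeGroup α, (QuotientGroup.mk w : FreeGroup α ⧸ N) = q →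
      FreeGroup.norm v ≤ FreeGroup.norm w := by
    intro w hw
    rw [hvn]
    exact Nat.find_min' hex ⟨w, rfl, hw⟩
  have hvlen : s * B < v.toWord.length := by
    by_contra hcon
    exact hq ⟨v, not_lt.1 hcon, hvq⟩
  set L := v.toWord with hL
  have hcut : ∀ k, (FreeGroup.mk (L.take (s * (k + 1)))) =
      FreeGroup.mk (L.take (s * k)) * FreeGroup.mk ((L.drop (s * k)).take s) := by
    intro k
    rw [FreeGroup.mul_mk, mul_add, mul_one, List.take_add]
  refine ⟨fun k => FreeGroup.mk (L.take (s * k)), fun k => FreeGroup.mk ((L.drop (s * k)).take s),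
    ?_, hcut, ?_, ?_⟩
  · simp
    rfl
  · intro k
    refine (FreeGroup.norm_mk_le).trans ?_
    rw [List.length_take]
    exact min_le_left _ _
  · rintro j k hjk hkB t hts ⟨e, he, heq⟩
    have h1 : (QuotientGroup.mk (FreeGroup.mk (L.take (s * j)) * e *
        FreeGroup.mk (L.drop (s * k))) : FreeGroup α ⧸ N) = q := by
      rw [QuotientGroup.mk_mul, QuotientGroup.mk_mul, heq, mul_inv_cancel_left,
        ← QuotientGroup.mk_mul, FreeGroup.mul_mk, List.take_append_drop, hL, FreeGroup.mk_toWord]
      exact hvq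
    have h2 := hvmin _ h1
    have h3 := FreeGroup.norm_mul_le (FreeGroup.mk (L.take (s * j)) * e)
      (FreeGroup.mk (L.drop (s * k)))
    have h4 := FreeGroup.norm_mul_le (FreeGroup.mk (L.take (s * j))) e
    have h5 : FreeGroup.norm (FreeGroup.mk (L.take (s * j))) ≤ s * j := by
      refine (FreeGroup.norm_mk_le).trans ?_
      rw [List.length_take]
      exact min_le_left _ _
    have h6 : FreeGroup.norm (FreeGroup.mk (L.drop (s * k))) ≤ L.length - s * k := by
      refine (FreeGroup.norm_mk_le).trans ?_
      rw [List.length_drop]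
    have h7 : FreeGroup.norm v = L.length := rfl
    have h8 : s * j + s ≤ s * k := by
      rw [← mul_add_one]
      exact Nat.mul_le_mul_left _ hjk
    have h9 : s * k ≤ s * B := Nat.mul_le_mul_left _ hkB
    omega

end geodesic

end Pool.Agent.U689.MG
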