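import Mathlib

/-!
# The crossed homomorphism of a free group into the functions on the edges of the Cayley graph

`N` is a normal subgroup of the free group, `c u` is the flow modulo `p` of the path `u` in the Cayley
graph of the quotient.
-/

set_option autoImplicit false

namespace Pool.Agent.U689.MG

open FreeGroup

variable {α : Type} [DecidableEq α]

section

variable (N : Subgroup (FreeGroup α)) [N.Normal] (p : ℕ)

/-- functions on the edges -/
abbrev A := (FreeGroup α ⧸ N) → α → Multiplicative (ZMod p)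

open Classical in
/-- the homomorphism into the wreath product -/
noncomputable def Phi : FreeGroup α →* (A N p) ⋊[mulAutArrow] (FreeGroup α ⧸ N) :=
  FreeGroup.lift fun x => ⟨Pi.mulSingle 1 (Pi.mulSingle x (Multiplicative.ofAdd 1)),
    QuotientGroup.mk (FreeGroup.of x)⟩

/-- the flow -/
noncomputable def c (u : FreeGroup α) : A N p := (Phi N p u).left

theorem right_eq (u : FreeGroup α) : (Phi N p u).right = QuotientGroup.mk u := by
  have h : (SemidirectProduct.rightHom.comp (Phi N p)) = QuotientGroup.mk' N := by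
    ext x
    simp [Phi]
  exact DFunLike.congr_fun h u

theorem c_mul (u v : FreeGroup α) (g : FreeGroup α ⧸ N) :
    c N p (u * v) g = c N p u g * c N p v ((QuotientGroup.mk u)⁻¹ * g) := by
  unfold c
  rw [_root_.map_mul, SemidirectProduct.mul_left, right_eq]
  rfl

theorem c_one (g : FreeGroup α ⧸ N) : c N p 1 g = 1 := by
  unfold c
  rw [_root_.map_one]
  rfl

theorem c_inv (u : FreeGroup α) (g : FreeGroup α ⧸ N) :
    c N p u⁻¹ g = (c N p u ((QuotientGroup.mk u) * g))⁻¹ := by
  have h := c_mul N p u u⁻¹ ((QuotientGroup.mk u) * g)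
  rw [mul_inv_cancel, c_one, inv_mul_cancel_left] at h
  exact (inv_eq_of_mul_eq_one_right h.symm).symm

theorem c_conj {w r : FreeGroup α} (hr : r ∈ N) (g : FreeGroup α ⧸ N) :
    c N p (w * r * w⁻¹) g = c N p r ((QuotientGroup.mk w)⁻¹ * g) := by
  have hr1 : (QuotientGroup.mk r : FreeGroup α ⧸ N) = 1 := (QuotientGroup.eq_one_iff r).2 hr
  rw [c_mul, c_mul, c_inv]
  have h1 : (QuotientGroup.mk (w * r) : FreeGroup α ⧸ N) = QuotientGroup.mk w := by
    rw [QuotientGroup.mk_mul, hr1, mul_one]
  rw [h1, mul_inv_cancel_left]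
  rw [mul_comm (c N p w g), mul_assoc, mul_inv_cancel, mul_one]

open Classical in
theorem c_of (x : α) (g : FreeGroup α ⧸ N) :
    c N p (FreeGroup.of x) g = if g = 1 then Pi.mulSingle x (Multiplicative.ofAdd 1) else 1 := by
  unfold c Phi
  rw [FreeGroup.lift_apply_of]
  by_cases h : g = 1
  · subst h
    simp
  · rw [if_neg h]
    simp [Pi.mulSingle_eq_of_ne h]

/-- The flow is trivial on an edge which the path does not use. -/
theorem c_eq_one (x : α) : ∀ (L : List (α × Bool)) (g : FreeGroup α ⧸ N),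
    (∀ L1 L2, L = L1 ++ (x, true) :: L2 → (QuotientGroup.mk (FreeGroup.mk L1) : FreeGroup α ⧸ N) ≠ g) →
    (∀ L1 L2, L = L1 ++ (x, false) :: L2 →
      (QuotientGroup.mk (FreeGroup.mk (L1 ++ [(x, false)])) : FreeGroup α ⧸ N) ≠ g) →
    c N p (FreeGroup.mk L) g x = 1 := by
  intro L
  induction L with
  | nil =>
    intro g _ _
    have : (FreeGroup.mk ([] : List (α × Bool))) = 1 := rfl
    rw [this, c_one]
    rfl
  | cons a L ih =>
    intro g h1 h2
    obtain ⟨y, b⟩ := a
    have e : FreeGroup.mk ((y, b) :: L) = FreeGroup.mk [(y, b)] * FreeGroup.mk L := by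
      rw [FreeGroup.mul_mk]
      rfl
    rw [e, c_mul, Pi.mul_apply]
    have hsnd : c N p (FreeGroup.mk L) ((QuotientGroup.mk (FreeGroup.mk [(y, b)]))⁻¹ * g) x = 1 := by
      apply ih
      · intro L1 L2 hL hg
        apply h1 ((y, b) :: L1) L2 (by rw [hL]; rfl)
        have e1 : FreeGroup.mk ((y, b) :: L1) = FreeGroup.mk [(y, b)] * FreeGroup.mk L1 := by
          rw [FreeGroup.mul_mk]
          rfl
        rw [e1, QuotientGroup.mk_mul, hg, mul_inv_cancel_left]
      · intro L1 L2 hL hg
        apply h2 ((y, b) :: L1) L2 (by rw [hL]; rfl)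
        have e1 : FreeGroup.mk ((y, b) :: L1 ++ [(x, false)]) =
            FreeGroup.mk [(y, b)] * FreeGroup.mk (L1 ++ [(x, false)]) := by
          rw [FreeGroup.mul_mk]
          rfl
        rw [e1, QuotientGroup.mk_mul, hg, mul_inv_cancel_left]
    rw [hsnd, mul_one]
    cases b with
    | true =>
      have e2 : FreeGroup.mk [(y, true)] = FreeGroup.of y := rfl
      rw [e2, c_of]
      split_ifs with hg
      · by_cases hxy : x = y
        · exfalso
          subst hxy
          exact h1 [] L rfl (by rw [hg]; rfl)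
        · exact Pi.mulSingle_eq_of_ne hxy _
      · rfl
    | false =>
      have e2 : FreeGroup.mk [(y, false)] = (FreeGroup.of y)⁻¹ := rfl
      rw [e2, c_inv, c_of]
      split_ifs with hg
      · by_cases hxy : x = y
        · exfalso
          subst hxy
          refine h2 [] L rfl ?_
          rw [List.nil_append, e2, QuotientGroup.mk_inv]
          exact (eq_inv_of_mul_eq_one_right hg).symm
        · rw [Pi.inv_apply, Pi.mulSingle_eq_of_ne hxy, inv_one]
      · simp

/-- The flow of a path is only nontrivial at vertices of the path. -/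
theorem c_supp (L : List (α × Bool)) (g : FreeGroup α ⧸ N) (h : c N p (FreeGroup.mk L) g ≠ 1) :
    ∃ L1, L1 <+: L ∧ (QuotientGroup.mk (FreeGroup.mk L1) : FreeGroup α ⧸ N) = g := by
  by_contra hcon
  push Not at hcon
  apply h
  funext x
  apply c_eq_one
  · intro L1 L2 hL
    exact hcon L1 ⟨_, hL.symm⟩
  · intro L1 L2 hL
    exact hcon (L1 ++ [(x, false)]) ⟨L2, by rw [hL]; simp⟩

end

theorem isReduced_part {L M : List (α × Bool)} (hL : FreeGroup.IsReduced L) (hM : M <:+: L) :
    FreeGroup.IsReduced M := by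
  obtain ⟨s, t, rfl⟩ := hM
  exact (List.IsChain.left_of_append hL).right_of_append

theorem norm_part {L M : List (α × Bool)} (hL : FreeGroup.IsReduced L) (hM : M <:+: L) :
    FreeGroup.norm (FreeGroup.mk M) = M.length := by
  unfold FreeGroup.norm
  rw [FreeGroup.toWord_mk, (isReduced_part hL hM).reduce_eq]

/-- `q` has a representative of norm at most `k` -/
def Sh (N : Subgroup (FreeGroup α)) (k : ℕ) (q : FreeGroup α ⧸ N) : Prop :=
  ∃ v : FreeGroup α, FreeGroup.norm v ≤ k ∧ (QuotientGroup.mk v : FreeGroup α ⧸ N) = q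

theorem Sh.inv {N : Subgroup (FreeGroup α)} [N.Normal] {k : ℕ} {q : FreeGroup α ⧸ N} (h : Sh N k q) :
    Sh N k q⁻¹ := by
  obtain ⟨v, hv, rfl⟩ := h
  exact ⟨v⁻¹, by rwa [FreeGroup.norm_inv_eq], rfl⟩

theorem Sh.mul {N : Subgroup (FreeGroup α)} [N.Normal] {k l : ℕ} {q q' : FreeGroup α ⧸ N}
    (h : Sh N k q) (h' : Sh N l q') : Sh N (k + l) (q * q') := by
  obtain ⟨v, hv, rfl⟩ := h
  obtain ⟨w, hw, rfl⟩ := h'
  exact ⟨v * w, (FreeGroup.norm_mul_le v w).trans (by omega), rfl⟩

theorem Sh.mono {N : Subgroup (FreeGroup α)} {k l : ℕ} {q : FreeGroup α ⧸ N} (h : Sh N k q)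
    (hkl : k ≤ l) : Sh N l q := by
  obtain ⟨v, hv, hq⟩ := h
  exact ⟨v, hv.trans hkl, hq⟩

section shortest

variable {N : Subgroup (FreeGroup α)} [N.Normal] {p : ℕ} {r : FreeGroup α}

/-- The flow of a shortest relation does not vanish. -/
theorem c_ne_one (hp : p ≠ 1) (hr : r ∈ N) (hr1 : r ≠ 1)
    (hmin : ∀ s ∈ N, s ≠ 1 → FreeGroup.norm r ≤ FreeGroup.norm s) : ∃ g, c N p r g ≠ 1 := by
  have hred : FreeGroup.IsReduced r.toWord := FreeGroup.isReduced_toWord
  have hgen : (Multiplicative.ofAdd (1 : ZMod p)) ≠ 1 := by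
    intro h
    have h1 : (1 : ZMod p) = 0 := by
      have := congrArg Multiplicative.toAdd h
      simpa using this
    have h2 : Subsingleton (ZMod p) := subsingleton_of_zero_eq_one h1.symm
    exact hp ((ZMod.subsingleton_iff).1 h2)
  -- short elements of `N` are trivial
  have short : ∀ M : List (α × Bool), M <:+: r.toWord → M.length < FreeGroup.norm r →
      FreeGroup.mk M ∈ N → M = [] := by
    intro M hM hlt hMN
    have h1 := norm_part hred hM
    by_contra hne
    have h2 : FreeGroup.mk M ≠ 1 := by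
      intro h3
      rw [h3, FreeGroup.norm_one] at h1
      exact hne (List.length_eq_zero_iff.1 h1.symm)
    have := hmin _ hMN h2
    omega
  have hrw : FreeGroup.mk r.toWord = r := FreeGroup.mk_toWord
  have hlen : r.toWord.length = FreeGroup.norm r := rfl
  rcases hL : r.toWord with _ | ⟨⟨x, b⟩, L⟩
  · exfalso
    apply hr1
    rw [← FreeGroup.toWord_eq_nil_iff]
    exact hL
  rw [hL] at hrw hlen hred short
  rw [List.length_cons] at hlen
  have e : FreeGroup.mk ((x, b) :: L) = FreeGroup.mk [(x, b)] * FreeGroup.mk L := by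
    rw [FreeGroup.mul_mk]
    rfl
  cases b with
  | true =>
    have e2 : FreeGroup.mk [(x, true)] = FreeGroup.of x := rfl
    refine ⟨1, fun h => ?_⟩
    have h1 := congrFun h x
    rw [← hrw, e, c_mul, Pi.mul_apply, e2, c_of, if_pos rfl, Pi.mulSingle_eq_same, mul_one] at h1
    rw [c_eq_one N p x L] at h1
    · rw [mul_one] at h1
      exact hgen h1
    · intro L1 L2 hL1 hg
      have h3 : FreeGroup.mk ((x, true) :: L1) ∈ N := by
        rw [← QuotientGroup.eq_one_iff]
        have e1 : FreeGroup.mk ((x, true) :: L1) = FreeGroup.mk [(x, true)] * FreeGroup.mk L1 := by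
          rw [FreeGroup.mul_mk]
          rfl
        rw [e1, QuotientGroup.mk_mul, hg, e2, mul_inv_cancel]
      have h4 := short ((x, true) :: L1) ⟨[], (x, true) :: L2, by rw [hL1]; simp⟩
        (by rw [← hlen, hL1]; simp) h3
      exact absurd h4 (by simp)
    · intro L1 L2 hL1 hg
      have h3 : FreeGroup.mk ((x, true) :: (L1 ++ [(x, false)])) ∈ N := by
        rw [← QuotientGroup.eq_one_iff]
        have e1 : FreeGroup.mk ((x, true) :: (L1 ++ [(x, false)])) =
            FreeGroup.mk [(x, true)] * FreeGroup.mk (L1 ++ [(x, false)]) := by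
          rw [FreeGroup.mul_mk]
          rfl
        rw [e1, QuotientGroup.mk_mul, hg, e2, mul_inv_cancel]
      have h6 : FreeGroup.mk L1 ∈ N := by
        have e1 : FreeGroup.mk ((x, true) :: (L1 ++ [(x, false)])) =
            FreeGroup.of x * FreeGroup.mk L1 * (FreeGroup.of x)⁻¹ := by
          have : (FreeGroup.of x)⁻¹ = FreeGroup.mk [(x, false)] := rfl
          rw [this, ← e2, FreeGroup.mul_mk, FreeGroup.mul_mk]
          rfl
        rw [e1] at h3
        have h7 := Subgroup.Normal.conj_mem ‹N.Normal› _ h3 (FreeGroup.of x)⁻¹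
        have e3 : (FreeGroup.of x)⁻¹ * (FreeGroup.of x * FreeGroup.mk L1 * (FreeGroup.of x)⁻¹) *
            (FreeGroup.of x)⁻¹⁻¹ = FreeGroup.mk L1 := by group
        rwa [e3] at h7
      have h7 := short L1 ⟨[(x, true)], (x, false) :: L2, by rw [hL1]; simp⟩
        (by rw [← hlen, hL1]; simp) h6
      subst h7
      rw [hL1] at hred
      simp [FreeGroup.IsReduced] at hred
  | false =>
    have e2 : FreeGroup.mk [(x, false)] = (FreeGroup.of x)⁻¹ := rfl
    refine ⟨(QuotientGroup.mk (FreeGroup.of x))⁻¹, fun h => ?_⟩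
    have h1 := congrFun h x
    rw [← hrw, e, c_mul, Pi.mul_apply, e2, c_inv, mul_inv_cancel, c_of, if_pos rfl, Pi.inv_apply,
      Pi.mulSingle_eq_same, QuotientGroup.mk_inv, inv_inv, mul_inv_cancel] at h1
    rw [c_eq_one N p x L] at h1
    · rw [mul_one] at h1
      exact hgen (inv_eq_one.1 h1)
    · intro L1 L2 hL1 hg
      have h3 : FreeGroup.mk L1 ∈ N := (QuotientGroup.eq_one_iff _).1 hg
      have h4 := short L1 ⟨[(x, false)], (x, true) :: L2, by rw [hL1]; simp⟩
        (by rw [← hlen, hL1]; simp) h3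
      subst h4
      rw [hL1] at hred
      simp [FreeGroup.IsReduced] at hred
    · intro L1 L2 hL1 hg
      have h3 : FreeGroup.mk (L1 ++ [(x, false)]) ∈ N := (QuotientGroup.eq_one_iff _).1 hg
      have h4 := short (L1 ++ [(x, false)]) ⟨[(x, false)], L2, by rw [hL1]; simp⟩
        (by rw [← hlen, hL1]; simp) h3
      exact absurd h4 (by simp)

end shortest

end Pool.Agent.U689.MG
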