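import Pool.Agent.U689.MG.Blocks

/-!
# Counting elements with different images in the wreath product
-/

set_option autoImplicit false

namespace Pool.Agent.U689.MG

open FreeGroup

variable {α : Type} [DecidableEq α]

section assemble

variable {N : Subgroup (FreeGroup α)} [N.Normal] {p : ℕ}

/-- a block, a piece of the geodesic, a block, and so on -/
def uw (b : A N p → FreeGroup α) (seg : ℕ → FreeGroup α) (f : ℕ → A N p) : ℕ → FreeGroup α
  | 0 => 1
  | k + 1 => uw b seg f k * b (f k) * seg k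

variable {b : A N p → FreeGroup α} {h seg : ℕ → FreeGroup α} {f : ℕ → A N p}

theorem uw_mk (h0 : h 0 = 1) (hs : ∀ k, h (k + 1) = h k * seg k) (hb : ∀ k, b (f k) ∈ N) (k : ℕ) :
    (QuotientGroup.mk (uw b seg f k) : FreeGroup α ⧸ N) = QuotientGroup.mk (h k) := by
  induction k with
  | zero => rw [h0]; rfl
  | succ k ih =>
    rw [uw, hs, QuotientGroup.mk_mul, QuotientGroup.mk_mul, ih, (QuotientGroup.eq_one_iff _).2 (hb k),
      mul_one, QuotientGroup.mk_mul]

theorem uw_c (h0 : h 0 = 1) (hs : ∀ k, h (k + 1) = h k * seg k) (hb : ∀ k, b (f k) ∈ N)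
    (hc : ∀ k, c N p (b (f k)) = f k) (B : ℕ) (g : FreeGroup α ⧸ N) :
    c N p (uw b seg f B) g = (∏ k ∈ Finset.range B, f k ((QuotientGroup.mk (h k))⁻¹ * g)) *
      ∏ k ∈ Finset.range B, c N p (seg k) ((QuotientGroup.mk (h k))⁻¹ * g) := by
  induction B with
  | zero => rw [uw, c_one]; simp
  | succ B ih =>
    rw [uw, c_mul, c_mul, ih, QuotientGroup.mk_mul, (QuotientGroup.eq_one_iff _).2 (hb B), mul_one,
      uw_mk h0 hs hb, hc, Finset.prod_range_succ, Finset.prod_range_succ]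
    exact mul_mul_mul_comm_aux _ _ _ _
where
  mul_mul_mul_comm_aux {M : Type} [CommGroup M] (x y z w : M) : x * y * z * w = x * z * (y * w) := by
    rw [mul_assoc x y z, mul_comm y z, ← mul_assoc, mul_assoc]

theorem uw_inj {f' : ℕ → A N p} (h0 : h 0 = 1) (hs : ∀ k, h (k + 1) = h k * seg k)
    (hb : ∀ k, b (f k) ∈ N) (hc : ∀ k, c N p (b (f k)) = f k)
    (hb' : ∀ k, b (f' k) ∈ N) (hc' : ∀ k, c N p (b (f' k)) = f' k) {B R : ℕ}
    (hR : ∀ k g, f k g ≠ 1 → Sh N R g) (hR' : ∀ k g, f' k g ≠ 1 → Sh N R g)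
    (hd : ∀ j k, j < k → k ≤ B → ∀ t, t < 2 * R + 1 →
        ¬ Sh N t ((QuotientGroup.mk (h j))⁻¹ * QuotientGroup.mk (h k)))
    (he : c N p (uw b seg f B) = c N p (uw b seg f' B)) {j : ℕ} (hj : j < B) : f j = f' j := by
  have hsep : ∀ k < B, k ≠ j → ∀ x, Sh N R x →
      ¬ Sh N R ((QuotientGroup.mk (h k))⁻¹ * (QuotientGroup.mk (h j) * x)) := by
    intro k hk hkj x hx hcon
    have h1 := hcon.mul hx.inv
    rw [← mul_assoc, mul_assoc, mul_inv_cancel, mul_one] at h1
    rcases lt_or_gt_of_ne hkj with h2 | h2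
    · exact hd k j h2 hj.le _ (by omega) h1
    · have h3 := h1.inv
      rw [mul_inv_rev, inv_inv] at h3
      exact hd j k h2 hk.le _ (by omega) h3
  funext x
  by_cases hx : Sh N R x
  · have h1 := congrFun he (QuotientGroup.mk (h j) * x)
    rw [uw_c h0 hs hb hc, uw_c h0 hs hb' hc'] at h1
    have h2 := mul_right_cancel h1
    rw [Finset.prod_eq_single j, Finset.prod_eq_single j, inv_mul_cancel_left] at h2
    · exact h2
    · intro k hk hkj
      by_contra hne
      exact hsep k (Finset.mem_range.1 hk) hkj x hx (hR' _ _ hne)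
    · intro h3
      exact absurd (Finset.mem_range.2 hj) h3
    · intro k hk hkj
      by_contra hne
      exact hsep k (Finset.mem_range.1 hk) hkj x hx (hR _ _ hne)
    · intro h3
      exact absurd (Finset.mem_range.2 hj) h3
  · have h1 : f j x = 1 := by
      by_contra hne
      exact hx (hR _ _ hne)
    have h2 : f' j x = 1 := by
      by_contra hne
      exact hx (hR' _ _ hne)
    rw [h1, h2]

theorem uw_norm {C s : ℕ} (hC : ∀ k, FreeGroup.norm (b (f k)) ≤ C)
    (hseg : ∀ k, FreeGroup.norm (seg k) ≤ s) (B : ℕ) :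
    FreeGroup.norm (uw b seg f B) ≤ B * (C + s) := by
  induction B with
  | zero => simp [uw]
  | succ B ih =>
    rw [uw]
    have h1 := FreeGroup.norm_mul_le (uw b seg f B * b (f B)) (seg B)
    have h2 := FreeGroup.norm_mul_le (uw b seg f B) (b (f B))
    have h3 := hC B
    have h4 := hseg B
    rw [add_mul, one_mul]
    omega

end assemble

/-- there are `M` elements of norm at most `n` with different images in the wreath product -/
def Many (N : Subgroup (FreeGroup α)) [N.Normal] (p n M : ℕ) : Prop :=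
  ∃ (ι : Type) (_ : Fintype ι) (U : ι → FreeGroup α), (∀ i, FreeGroup.norm (U i) ≤ n) ∧
    Function.Injective (fun i => Phi N p (U i)) ∧ M ≤ Fintype.card ι

variable {N : Subgroup (FreeGroup α)} [N.Normal] {p : ℕ} {r : FreeGroup α}

theorem many_blocks [Nontrivial α] [Finite α] [Infinite (FreeGroup α ⧸ N)] (hp : p ≠ 1) (hr : r ∈ N)
    (hr1 : r ≠ 1) (hmin : ∀ s ∈ N, s ≠ 1 → FreeGroup.norm r ≤ FreeGroup.norm s) (l B : ℕ)
    (hl : 2 * l < FreeGroup.norm r) : ∃ t : ℕ, 2 ≤ t ∧ 3 ^ l ≤ (FreeGroup.norm r + 1) * t ∧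
      Many N p (B * (5 * FreeGroup.norm r)) (t ^ B) := by
  classical
  obtain ⟨T, hT2, hT3, hT⟩ := exists_blocks hp hr hr1 hmin l hl
  refine ⟨T.card, hT2, hT3, ?_⟩
  obtain ⟨h, seg, h0, hs, hseg, hd⟩ := exists_geodesic N (2 * (l + FreeGroup.norm r) + 1) B
  have hex : ∀ τ : T, ∃ b ∈ N, FreeGroup.norm b ≤ 2 * l + FreeGroup.norm r ∧ c N p b = τ := fun τ =>
    (hT τ τ.2).1
  choose b hb1 hb2 hb3 using hex
  have hTne : T.Nonempty := Finset.card_pos.1 (by omega)
  obtain ⟨τ₀, hτ₀⟩ := hTne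
  let bb : A N p → FreeGroup α := fun τ => if hτ : τ ∈ T then b ⟨τ, hτ⟩ else 1
  have hbb : ∀ τ (hτ : τ ∈ T), bb τ = b ⟨τ, hτ⟩ := fun τ hτ => dif_pos hτ
  let ext : (Fin B → T) → ℕ → A N p := fun f k => if hk : k < B then (f ⟨k, hk⟩ : A N p) else τ₀
  have hext : ∀ f k, ext f k ∈ T := by
    intro f k
    simp only [ext]
    split_ifs with hk
    · exact (f ⟨k, hk⟩).2
    · exact hτ₀
  refine ⟨Fin B → T, inferInstance, fun f => uw bb seg (ext f) B, ?_, ?_, ?_⟩
  · intro f
    have h1 := uw_norm (b := bb) (seg := seg) (f := ext f) (C := 2 * l + FreeGroup.norm r)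
      (s := 2 * (l + FreeGroup.norm r) + 1) (fun k => by rw [hbb _ (hext f k)]; exact hb2 _) hseg B
    refine h1.trans (Nat.mul_le_mul_left _ (by omega))
  · intro f f' hff
    have hc1 : c N p (uw bb seg (ext f) B) = c N p (uw bb seg (ext f') B) :=
      congrArg SemidirectProduct.left hff
    funext j
    have h1 := uw_inj (b := bb) (f := ext f) (f' := ext f') (R := l + FreeGroup.norm r) h0 hs
      (fun k => by rw [hbb _ (hext f k)]; exact hb1 _)
      (fun k => by rw [hbb _ (hext f k)]; exact hb3 _)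
      (fun k => by rw [hbb _ (hext f' k)]; exact hb1 _)
      (fun k => by rw [hbb _ (hext f' k)]; exact hb3 _)
      (fun k g hg => (hT _ (hext f k)).2 g hg) (fun k g hg => (hT _ (hext f' k)).2 g hg)
      hd hc1 j.2
    simp only [ext, dif_pos j.2] at h1
    exact Subtype.ext h1
  · rw [Fintype.card_fun, Fintype.card_fin, Fintype.card_coe]

theorem many_words [Nontrivial α]
    (hmin : ∀ s ∈ N, s ≠ 1 → FreeGroup.norm r ≤ FreeGroup.norm s) (l : ℕ)
    (hl : 2 * l < FreeGroup.norm r) : Many N p l (3 ^ l) := by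
  obtain ⟨wd, h1, h2⟩ := exists_words (α := α) l
  refine ⟨Fin l → Fin 3, inferInstance, wd, h2, ?_, ?_⟩
  · intro i j hij
    have h3 := congrArg SemidirectProduct.right hij
    simp only [right_eq] at h3
    exact h1 (eq_of_mk hmin (by have := h2 i; have := h2 j; omega) h3)
  · rw [Fintype.card_fun, Fintype.card_fin, Fintype.card_fin]

theorem many_two [Nonempty α] (hp : p ≠ 1) : Many N p 1 2 := by
  obtain ⟨x⟩ := ‹Nonempty α›
  have hgen : (Multiplicative.ofAdd (1 : ZMod p)) ≠ 1 := by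
    intro h
    have h1 : (1 : ZMod p) = 0 := by
      have := congrArg Multiplicative.toAdd h
      simpa using this
    have h2 : Subsingleton (ZMod p) := subsingleton_of_zero_eq_one h1.symm
    exact hp ((ZMod.subsingleton_iff).1 h2)
  have hne : Phi N p (FreeGroup.of x) ≠ Phi N p 1 := by
    intro h
    have h1 : c N p (FreeGroup.of x) 1 x = c N p 1 1 x := by
      unfold c
      rw [h]
    rw [c_of, if_pos rfl, c_one, Pi.mulSingle_eq_same] at h1
    exact hgen h1
  refine ⟨Bool, inferInstance, fun b => if b then FreeGroup.of x else 1, ?_, ?_, le_rfl⟩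
  · intro b
    cases b <;> simp
  · intro i j hij
    cases i <;> cases j <;> simp at hij ⊢
    · exact absurd hij.symm (by rwa [_root_.map_one] at hne)
    · exact absurd hij (by rwa [_root_.map_one] at hne)

theorem Many.mono {n n' M M' : ℕ} (h : Many N p n M) (hn : n ≤ n') (hM : M' ≤ M) :
    Many N p n' M' := by
  obtain ⟨ι, i1, U, h1, h2, h3⟩ := h
  exact ⟨ι, i1, U, fun i => (h1 i).trans hn, h2, hM.trans h3⟩

theorem num1 (l : ℕ) (hl : 5 ≤ l) : 2 * l + 3 ≤ 2 ^ l := by
  induction l, hl using Nat.le_induction with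
  | base => norm_num
  | succ l hl ih =>
    rw [pow_succ]
    omega

/-- the number of elements grows at an absolute rate -/
theorem many_main [Nontrivial α] [Finite α] [Infinite (FreeGroup α ⧸ N)] (hp : p ≠ 1) (hr : r ∈ N)
    (hr1 : r ≠ 1) (hmin : ∀ s ∈ N, s ≠ 1 → FreeGroup.norm r ≤ FreeGroup.norm s) (n : ℕ) :
    ∃ M, 2 ^ n ≤ M ^ 100 ∧ Many N p n M := by
  set m := FreeGroup.norm r with hm
  have hm1 : 1 ≤ m := by
    rw [Nat.one_le_iff_ne_zero]
    intro h
    exact hr1 (FreeGroup.norm_eq_zero.1 h)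
  obtain ⟨l, hl⟩ : ∃ l, l = (m - 1) / 2 := ⟨_, rfl⟩
  have hlm : 2 * l < m := by omega
  have hml : m ≤ 2 * l + 2 := by omega
  rcases lt_or_ge n (5 * m) with hn | hn
  · -- short words
    rcases le_or_gt n 100 with h1 | h1
    · rcases Nat.eq_zero_or_pos n with h0 | h0
      · subst h0
        refine ⟨1, by norm_num, ?_⟩
        refine ⟨Unit, inferInstance, fun _ => 1, fun _ => by simp, ?_, le_rfl⟩
        intro i j _
        rfl
      · exact ⟨2, Nat.pow_le_pow_right (by norm_num) h1, (many_two hp).mono h0 le_rfl⟩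
    · rcases le_or_gt n l with h2 | h2
      · refine ⟨3 ^ n, ?_, many_words hmin n (by omega)⟩
        calc 2 ^ n ≤ 3 ^ n := Nat.pow_le_pow_left (by norm_num) n
          _ ≤ (3 ^ n) ^ 100 := Nat.le_self_pow (by norm_num) _
      · refine ⟨3 ^ l, ?_, (many_words hmin l hlm).mono h2.le le_rfl⟩
        rw [← pow_mul]
        calc 2 ^ n ≤ 2 ^ (l * 100) := Nat.pow_le_pow_right (by norm_num) (by omega)
          _ ≤ 3 ^ (l * 100) := Nat.pow_le_pow_left (by norm_num) _
  · -- blocks
    obtain ⟨B, hB⟩ : ∃ B, B = n / (5 * m) := ⟨_, rfl⟩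
    obtain ⟨t, ht2, ht3, ht⟩ := many_blocks hp hr hr1 hmin l B hlm
    rw [← hm] at ht3 ht
    have hB1 : 1 ≤ B := by
      rw [hB]
      exact (Nat.le_div_iff_mul_le (by omega)).2 (by omega)
    have hB2 : B * (5 * m) ≤ n := by
      rw [hB]
      exact Nat.div_mul_le_self _ _
    have hB3 : n ≤ 10 * m * B := by
      have h1 : n < (B + 1) * (5 * m) := by
        rw [hB]
        have := Nat.lt_div_mul_add (a := n) (b := 5 * m) (by omega)
        rw [add_mul, one_mul]
        exact this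
      nlinarith
    refine ⟨t ^ B, ?_, ht.mono hB2 le_rfl⟩
    have ht10 : 2 ^ m ≤ t ^ 10 := by
      rcases le_or_gt m 10 with h1 | h1
      · calc 2 ^ m ≤ 2 ^ 10 := Nat.pow_le_pow_right (by norm_num) h1
          _ ≤ t ^ 10 := Nat.pow_le_pow_left ht2 10
      · have hl5 : 5 ≤ l := by omega
        have h2 : 3 ^ l ≤ 2 ^ l * t := by
          refine ht3.trans (Nat.mul_le_mul_right _ ?_)
          have := num1 l hl5
          omega
        have h3 : (3 ^ l) ^ 10 ≤ (2 ^ l * t) ^ 10 := Nat.pow_le_pow_left h2 10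
        have h4 : 2 ^ m * 2 ^ (10 * l) ≤ t ^ 10 * 2 ^ (10 * l) := by
          calc 2 ^ m * 2 ^ (10 * l) = 2 ^ (m + 10 * l) := (pow_add _ _ _).symm
            _ ≤ 2 ^ (13 * l) := Nat.pow_le_pow_right (by norm_num) (by omega)
            _ = (2 ^ 13) ^ l := pow_mul _ _ _
            _ ≤ (3 ^ 10) ^ l := Nat.pow_le_pow_left (by norm_num) l
            _ = (3 ^ l) ^ 10 := by rw [← pow_mul, ← pow_mul, mul_comm]
            _ ≤ (2 ^ l * t) ^ 10 := h3
            _ = t ^ 10 * 2 ^ (10 * l) := by rw [mul_pow, ← pow_mul, mul_comm l 10, mul_comm]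
        exact Nat.le_of_mul_le_mul_right h4 (by positivity)
    calc 2 ^ n ≤ 2 ^ (m * (10 * B)) := Nat.pow_le_pow_right (by norm_num) (by nlinarith)
      _ = (2 ^ m) ^ (10 * B) := pow_mul _ _ _
      _ ≤ (t ^ 10) ^ (10 * B) := Nat.pow_le_pow_left ht10 _
      _ = (t ^ B) ^ 100 := by rw [← pow_mul, ← pow_mul]; congr 1; ring

end Pool.Agent.U689.MG
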