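import Pool.Agent.U689.MG.Count

/-!
# The growth of the quotients `F / K` with `K ≤ [N, N] N ^ p`
-/

set_option autoImplicit false

namespace Pool.Agent.U689.MG

open FreeGroup

section kernel

variable {α : Type} [DecidableEq α] {N : Subgroup (FreeGroup α)} [N.Normal] {p : ℕ}

theorem Phi_of_mem {n : FreeGroup α} (hn : n ∈ N) : Phi N p n = SemidirectProduct.inl (c N p n) := by
  ext1
  · rfl
  · rw [right_eq, SemidirectProduct.right_inl]
    exact (QuotientGroup.eq_one_iff n).2 hn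

theorem le_ker :
    ⁅N, N⁆ ⊔ Subgroup.closure {x | ∃ n ∈ N, n ^ p = x} ≤ (Phi N p).ker := by
  rw [sup_le_iff]
  constructor
  · rw [Subgroup.commutator_le]
    intro a ha b hb
    rw [MonoidHom.mem_ker, map_commutatorElement, commutatorElement_eq_one_iff_mul_comm,
      Phi_of_mem ha, Phi_of_mem hb, ← _root_.map_mul, ← _root_.map_mul, mul_comm]
  · rw [Subgroup.closure_le]
    rintro _ ⟨n, hn, rfl⟩
    rw [SetLike.mem_coe, MonoidHom.mem_ker, _root_.map_pow, Phi_of_mem hn, ← _root_.map_pow]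
    have h1 : c N p n ^ p = 1 := by
      funext g x
      rw [Pi.pow_apply, Pi.pow_apply, Pi.one_apply, Pi.one_apply]
      apply Multiplicative.toAdd.injective
      rw [toAdd_pow, toAdd_one, nsmul_eq_mul, CharP.cast_eq_zero, zero_mul]
    rw [h1, _root_.map_one]

/-- the number of elements grows at an absolute rate, in all cases -/
theorem many_all [Nontrivial α] [Finite α] [Infinite (FreeGroup α ⧸ N)] (hp : p ≠ 1) (n : ℕ) :
    ∃ M, 2 ^ n ≤ M ^ 100 ∧ Many N p n M := by
  by_cases hN : ∃ r ∈ N, r ≠ 1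
  · have hex : ∃ k, ∃ r ∈ N, r ≠ 1 ∧ FreeGroup.norm r = k := by
      obtain ⟨r, h1, h2⟩ := hN
      exact ⟨_, r, h1, h2, rfl⟩
    classical
    obtain ⟨r, h1, h2, h3⟩ := Nat.find_spec hex
    refine many_main hp h1 h2 (fun s hs hs1 => ?_) n
    rw [h3]
    exact Nat.find_min' hex ⟨s, hs, hs1, rfl⟩
  · obtain ⟨wd, h1, h2⟩ := exists_words (α := α) n
    refine ⟨3 ^ n, ?_, Fin n → Fin 3, inferInstance, wd, h2, ?_, ?_⟩
    · calc 2 ^ n ≤ 3 ^ n := Nat.pow_le_pow_left (by norm_num) n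
        _ ≤ (3 ^ n) ^ 100 := Nat.le_self_pow (by norm_num) _
    · intro i j hij
      have h3 := congrArg SemidirectProduct.right hij
      simp only [right_eq] at h3
      have h4 : (wd i)⁻¹ * wd j ∈ N := QuotientGroup.eq.1 h3
      have h5 : (wd i)⁻¹ * wd j = 1 := by
        by_contra h6
        exact hN ⟨_, h4, h6⟩
      exact h1 (inv_mul_eq_one.1 h5)
    · rw [Fintype.card_fun, Fintype.card_fin, Fintype.card_fin]

end kernel

section growth

variable {G : Type} [Group G]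

/-- the growth function -/
noncomputable def gr (X : Finset G) (n : ℕ) : ℕ :=
  Set.ncard {g : G | ∃ l : List G, l.length ≤ n ∧ (∀ x ∈ l, x ∈ X ∨ x⁻¹ ∈ X) ∧ l.prod = g}

variable (X : Finset G) [DecidableEq X]

/-- the canonical homomorphism -/
def pr : FreeGroup X →* G := FreeGroup.lift (Subtype.val : X → G)

theorem exists_word (l : List G) (hl : ∀ x ∈ l, x ∈ X ∨ x⁻¹ ∈ X) :
    ∃ v : FreeGroup X, FreeGroup.norm v ≤ l.length ∧ pr X v = l.prod := by
  induction l with
  | nil => exact ⟨1, by simp, by simp⟩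
  | cons a l ih =>
    obtain ⟨v, h1, h2⟩ := ih fun x hx => hl x (List.mem_cons_of_mem _ hx)
    rcases hl a List.mem_cons_self with ha | ha
    · refine ⟨FreeGroup.of ⟨a, ha⟩ * v, ?_, ?_⟩
      · refine (FreeGroup.norm_mul_le _ _).trans ?_
        rw [FreeGroup.norm_of, List.length_cons]
        omega
      · rw [_root_.map_mul, h2, List.prod_cons]
        congr 1
        simp [pr]
    · refine ⟨(FreeGroup.of ⟨a⁻¹, ha⟩)⁻¹ * v, ?_, ?_⟩
      · refine (FreeGroup.norm_mul_le _ _).trans ?_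
        rw [FreeGroup.norm_inv_eq, FreeGroup.norm_of, List.length_cons]
        omega
      · rw [_root_.map_mul, h2, List.prod_cons]
        congr 1
        simp [pr]

theorem exists_list (v : FreeGroup X) : ∃ l : List G, l.length ≤ FreeGroup.norm v ∧
    (∀ x ∈ l, x ∈ X ∨ x⁻¹ ∈ X) ∧ l.prod = pr X v := by
  refine ⟨v.toWord.map fun x => cond x.2 (x.1 : G) (x.1 : G)⁻¹, ?_, ?_, ?_⟩
  · rw [List.length_map]
    rfl
  · intro x hx
    obtain ⟨⟨y, b⟩, -, rfl⟩ := List.mem_map.1 hx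
    cases b with
    | true => exact Or.inl y.2
    | false => exact Or.inr (by simp)
  · conv_rhs => rw [← FreeGroup.mk_toWord (x := v)]
    unfold pr
    rw [FreeGroup.lift_mk]

theorem le_gr {N : Subgroup (FreeGroup X)} [N.Normal] {p n M : ℕ} (hK : (pr X).ker ≤ (Phi N p).ker)
    (h : Many N p n M) : M ≤ gr X n := by
  classical
  obtain ⟨ι, _, U, h1, h2, h3⟩ := h
  have hfin : {g : G | ∃ l : List G, l.length ≤ n ∧ (∀ x ∈ l, x ∈ X ∨ x⁻¹ ∈ X) ∧
      l.prod = g}.Finite := by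
    refine Set.Finite.subset ((finite_norm (α := X) n).image (pr X)) ?_
    rintro g ⟨l, hl, hx, rfl⟩
    obtain ⟨v, hv, hv2⟩ := exists_word X l hx
    exact ⟨v, hv.trans hl, hv2⟩
  have hinj : Function.Injective fun i => pr X (U i) := by
    intro i j hij
    apply h2
    have h4 : (U i)⁻¹ * U j ∈ (pr X).ker := by
      rw [MonoidHom.mem_ker, _root_.map_mul, _root_.map_inv]
      exact inv_mul_eq_one.2 hij
    have h5 := hK h4
    rw [MonoidHom.mem_ker, _root_.map_mul, _root_.map_inv] at h5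
    exact inv_mul_eq_one.1 h5
  have hsub : ((Finset.univ.image fun i => pr X (U i) : Finset G) : Set G) ⊆
      {g : G | ∃ l : List G, l.length ≤ n ∧ (∀ x ∈ l, x ∈ X ∨ x⁻¹ ∈ X) ∧ l.prod = g} := by
    intro g hg
    rw [Finset.mem_coe, Finset.mem_image] at hg
    obtain ⟨i, -, rfl⟩ := hg
    obtain ⟨l, hl, hx, hl2⟩ := exists_list X (U i)
    exact ⟨l, hl.trans (h1 i), hx, hl2⟩
  have h6 := Set.ncard_le_ncard hsub hfin
  rw [Set.ncard_coe_finset, Finset.card_image_of_injective _ hinj, Finset.card_univ] at h6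
  exact h3.trans h6

theorem final (hX : 2 ≤ X.card) (N : Subgroup (FreeGroup X)) [N.Normal]
    [Infinite (FreeGroup X ⧸ N)] (p : ℕ) (hp : p ≠ 1)
    (hK : (FreeGroup.lift (Subtype.val : X → G)).ker ≤
      ⁅N, N⁆ ⊔ Subgroup.closure {x | ∃ n ∈ N, n ^ p = x}) (n : ℕ) :
    (2 : ℝ) ^ ((n : ℝ) / 100) ≤ (gr X n : ℝ) := by
  have hnt : Nontrivial X := by
    have : Nontrivial (X : Set G) := (Finset.one_lt_card_iff_nontrivial.1 hX).coe_sort
    exact this
  obtain ⟨M, hM1, hM2⟩ := many_all (N := N) hp n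
  have h1 : M ≤ gr X n := le_gr X (hK.trans le_ker) hM2
  have h2 : ((2 : ℝ) ^ n) ≤ ((M : ℝ)) ^ 100 := by exact_mod_cast hM1
  calc (2 : ℝ) ^ ((n : ℝ) / 100) = ((2 : ℝ) ^ n) ^ ((1 : ℝ) / 100) := by
        rw [← Real.rpow_natCast, ← Real.rpow_mul (by norm_num)]
        congr 1
        ring
    _ ≤ (((M : ℝ)) ^ 100) ^ ((1 : ℝ) / 100) := Real.rpow_le_rpow (by positivity) h2 (by norm_num)
    _ = (M : ℝ) := by
        rw [← Real.rpow_natCast, ← Real.rpow_mul (by positivity)]
        norm_num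
    _ ≤ (gr X n : ℝ) := by exact_mod_cast h1

end growth

end Pool.Agent.U689.MG
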